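import Pool.Agent.R3M.Kit

/-!
# R3M, module CLS: all pairs are consistent
-/

set_option autoImplicit false

namespace Pool.Agent.R3M.H31

open Pool.Agent.R3M Pool.Agent.R3M.Kit

section
variable {α : Type} [DecidableEq α]

theorem ci_erase {M N : Mat α} {n : ℕ} {P : Finset α} (hP : CI M N (n + 1) P) {u : α}
    (hu : u ∈ P) : CI M N n (P.erase u) := by
  refine ⟨M.sub hP.1 (Finset.erase_subset _ _), N.sub hP.2.1 (Finset.erase_subset _ _), ?_⟩
  rw [Finset.card_erase_of_mem hu, hP.2.2]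
  omega

theorem cons_refl {M N : Mat α} {n : ℕ} {φ : Finset α → Finset α → ℤ} {θ : Finset α → ℤ}
    (hc : Clo M N n φ) {P : Finset α} (hP : CI M N (n + 1) P) {u : α} (hu : u ∈ P) :
    Cons φ θ P u u := by
  unfold Cons
  rw [clo_self hc (ci_erase hP hu)]
  ring

theorem cons_symm {M N : Mat α} {n : ℕ} {φ : Finset α → Finset α → ℤ} {θ : Finset α → ℤ}
    (hc : Clo M N n φ) {P : Finset α} (hP : CI M N (n + 1) P) {u v : α} (hu : u ∈ P)
    (hv : v ∈ P) (h : Cons φ θ P u v) : Cons φ θ P v u := by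
  unfold Cons at h ⊢
  rw [clo_anti hc (ci_erase hP hu) (ci_erase hP hv) (near_erase P u v), h]
  ring

theorem cons_trans {M N : Mat α} {n : ℕ} {φ : Finset α → Finset α → ℤ} {θ : Finset α → ℤ}
    (hc : Clo M N n φ) {P : Finset α} (hP : CI M N (n + 1) P) {u v w : α} (hu : u ∈ P)
    (hv : v ∈ P) (hw : w ∈ P) (h : Cons φ θ P u v) (h' : Cons φ θ P v w) : Cons φ θ P u w := by
  unfold Cons at h h' ⊢
  rw [← clo_tri hc (ci_erase hP hu) (ci_erase hP hv) (ci_erase hP hw) (near_erase P u v)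
    (near_erase P v w) (near_erase P u w), h, h']
  ring

/-- The three exclusions for a pair of elements which is not consistent. -/
structure Excl (M N : Mat α) (P : Finset α) (u v e : α) : Prop where
  x1 : ¬ ((Arc M P u e ∨ Arc M P v e) ∧ (Arc N P u e ∨ Arc N P v e))
  x2 : ¬ (Arc M P u e ∧ Arc M P v e)
  x3 : ¬ (Arc N P u e ∧ Arc N P v e)

theorem Excl.swap {M N : Mat α} {P : Finset α} {u v e : α} (h : Excl M N P u v e) :
    Excl N M P u v e :=
  ⟨fun hx => h.x1 ⟨hx.2, hx.1⟩, h.x3, h.x2⟩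

theorem Excl.symm {M N : Mat α} {P : Finset α} {u v e : α} (h : Excl M N P u v e) :
    Excl M N P v u e :=
  ⟨fun hx => h.x1 ⟨hx.1.symm, hx.2.symm⟩, fun hx => h.x2 ⟨hx.2, hx.1⟩,
    fun hx => h.x3 ⟨hx.2, hx.1⟩⟩

end

theorem excl_of (hor : HorStmt) {α : Type} [DecidableEq α] {M N : Mat α} {n : ℕ} {S : Finset α}
    {φ : Finset α → Finset α → ℤ} {θ : Finset α → ℤ} {k : ℕ} (hS : Setup M N n S)
    (hc : Clo M N n φ) (hv : Vert M N n S φ k θ) {P : Finset α} (hP : CI M N (n + 1) P)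
    (hk : (P ∩ S).card = k) {u v : α} (huP : u ∈ P) (hvP : v ∈ P) (huS : u ∉ S) (hvS : v ∉ S)
    (hn : ¬ Cons φ θ P u v) {e : α} (heS : e ∈ S) (heP : e ∉ P) : Excl M N P u v e := by
  have huv : u ≠ v := by
    intro h
    subst h
    exact hn (cons_refl hc hP huP)
  have hvu : v ≠ u := huv.symm
  have hKu : insert v ((P.erase u).erase v) = P.erase u :=
    Finset.insert_erase (Finset.mem_erase.mpr ⟨hvu, hvP⟩)
  have hKv : insert u ((P.erase u).erase v) = P.erase v := by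
    rw [Finset.erase_right_comm]
    exact Finset.insert_erase (Finset.mem_erase.mpr ⟨huv, huP⟩)
  have hlev : ((P.erase u).erase v ∩ S).card = k := by
    rw [← hk]
    congr 1
    ext x
    simp only [Finset.mem_inter, Finset.mem_erase]
    constructor
    · rintro ⟨⟨_, _, h3⟩, h4⟩
      exact ⟨h3, h4⟩
    · rintro ⟨h3, h4⟩
      exact ⟨⟨fun h => hvS (h ▸ h4), fun h => huS (h ▸ h4), h3⟩, h4⟩
  have hh := hor α M N n S φ θ k ((P.erase u).erase v) v u hS hc hv
    (fun h => (Finset.mem_erase.mp h).1 rfl)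
    (fun h => (Finset.mem_erase.mp (Finset.mem_of_mem_erase h)).1 rfl) hvu hvS huS
    (by rw [hKu]; exact ci_erase hP huP) (by rw [hKv]; exact ci_erase hP hvP) hlev
  rw [hKu, hKv] at hh
  rcases hh with hh | ⟨_, hh⟩
  · exact absurd hh hn
  · have h3 := hh e heS (fun h => heP (Finset.mem_of_mem_erase (Finset.mem_of_mem_erase h)))
    exact ⟨h3.1, h3.2.1, h3.2.2⟩

/-- A class gives a chordless cycle. -/
theorem cyc_of (lci : LciStmt) (hor : HorStmt) (cyc : CycStmt) {α : Type} [DecidableEq α]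
    {M N : Mat α} {n : ℕ} {S : Finset α}
    {φ : Finset α → Finset α → ℤ} {θ : Finset α → ℤ} {k : ℕ} (hS : Setup M N n S)
    (hc : Clo M N n φ) (hv : Vert M N n S φ k θ) {P : Finset α} (hP : CI M N (n + 1) P)
    (hk : (P ∩ S).card = k) {x y : α} (hxP : x ∈ P) (hyP : y ∈ P) (hxS : x ∉ S) (hyS : y ∉ S)
    (hn : ¬ Cons φ θ P x y) :
    ∃ (m : ℕ) (h e : ℕ → α), Cyc M N P S m h e ∧
      ∀ i, i ≤ m → h i ∈ P ∧ h i ∉ S ∧ Cons φ θ P x (h i) := by
  classical
  set X : Finset α := P.filter (fun u => u ∉ S ∧ Cons φ θ P x u) with hX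
  have memX : ∀ u, u ∈ X ↔ u ∈ P ∧ u ∉ S ∧ Cons φ θ P x u := by
    intro u
    rw [hX, Finset.mem_filter]
  have hfree : ∀ u ∈ X, ¬ Cons φ θ P u y := by
    intro u hu hcon
    have := (memX u).mp hu
    exact hn (cons_trans hc hP hxP this.1 hyP this.2.2 hcon)
  obtain ⟨m, h, e, hcyc, hmem⟩ := cyc α M N P S X
    ⟨x, (memX x).mpr ⟨hxP, hxS, cons_refl hc hP hxP⟩⟩
    (fun u hu => ⟨((memX u).mp hu).1, ((memX u).mp hu).2.1⟩) (by
      intro u hu
      obtain ⟨huP, huS, hxu⟩ := (memX u).mp hu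
      have hcu := ci_erase hP huP
      obtain ⟨e, heS, heu, heM⟩ := M.aug hcu.1 hS.cS.1 (by rw [hcu.2.2, hS.cS.2.2]; omega)
      have hne : e ≠ u := fun h => huS (h ▸ heS)
      have heP : e ∉ P := fun h => heu (Finset.mem_erase.mpr ⟨hne, h⟩)
      refine ⟨e, heS, heP, heM, ?_⟩
      have hdep : ¬ N.Ind (insert e P) := by
        intro hi
        have := hS.rN _ hi
        rw [Finset.card_insert_of_notMem heP, hP.2.2] at this
        omega
      obtain ⟨f, hfP, hfS, hf⟩ := lci α N P S e hP.2.1 hS.cS.2.1 heS heP hdep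
      refine ⟨f, (memX f).mpr ⟨hfP, hfS, ?_⟩, hf⟩
      by_contra hxf
      have huf : ¬ Cons φ θ P u f := fun h => hxf (cons_trans hc hP hxP huP hfP hxu h)
      exact (excl_of hor hS hc hv hP hk huP hfP huS hfS huf heS heP).x1
        ⟨Or.inl heM, Or.inr hf⟩) (by
      intro u hu e heS heP hcon
      obtain ⟨huP, huS, hxu⟩ := (memX u).mp hu
      exact (excl_of hor hS hc hv hP hk huP hyP huS hyS (hfree u hu) heS heP).x1
        ⟨Or.inl hcon.1, Or.inl hcon.2⟩)
  exact ⟨m, h, e, hcyc, fun i hi => (memX (h i)).mp (hmem i hi)⟩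

/-- CLS. -/
theorem cls (lci : LciStmt) (hor : HorStmt) (cyc : CycStmt) (pta : PtaStmt) (ptb : PtbStmt)
    (con : ConStmt) : ClsStmt := by
  intro α _ M N n S φ θ k hS hc hirr hv P x y hP hk hxP hyP hxS hyS
  by_contra hn
  have hn' : ¬ Cons φ θ P y x := fun h => hn (cons_symm hc hP hyP hxP h)
  obtain ⟨a, g, d, hg, hgX⟩ := cyc_of lci hor cyc (setup_swap hS) (clo_swap hc) (vert_swap hv)
    (ci_swap hP) hk hxP hyP hxS hyS hn
  obtain ⟨b, h, e, hh, hhY⟩ := cyc_of lci hor cyc hS hc hv hP hk hyP hxP hyS hxS hn'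
  -- elements of the two classes are never consistent
  have hXY : ∀ i j, i ≤ a → j ≤ b → ¬ Cons φ θ P (g i) (h j) := by
    intro i j hi hj hcon
    obtain ⟨g1, g2, g3⟩ := hgX i hi
    obtain ⟨h1, h2, h3⟩ := hhY j hj
    exact hn (cons_trans hc hP hxP g1 hyP g3
      (cons_trans hc hP g1 h1 hyP hcon (cons_symm hc hP hyP h1 h3)))
  have hex : ∀ i j, i ≤ a → j ≤ b → ∀ z, z ∈ S → z ∉ P → Excl M N P (g i) (h j) z := by
    intro i j hi hj z hzS hzP
    obtain ⟨g1, g2, g3⟩ := hgX i hi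
    obtain ⟨h1, h2, h3⟩ := hhY j hj
    exact excl_of hor hS hc hv hP hk g1 h1 g2 h2 (hXY i j hi hj) hzS hzP
  have hsep : Sep M N P a b g d h e := by
    refine ⟨?_, ?_, ?_⟩
    · intro i j hi hj hgh
      refine hXY i j hi hj ?_
      rw [hgh]
      exact cons_refl hc hP (hhY j hj).1
    · intro i j hi hj
      have heS := hh.eS j hj
      have heP := hh.eP j hj
      exact ⟨fun hA => (hex i j hi hj.le (e j) heS heP).x2 ⟨hA, hh.aM j hj⟩,
        fun hA => (hex i (j + 1) hi hj (e j) heS heP).x3 ⟨hA, hh.aN j hj⟩⟩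
    · intro i j hi hj
      have hdS := hg.eS i hi
      have hdP := hg.eP i hi
      exact ⟨fun hA => (hex (i + 1) j hi hj (d i) hdS hdP).x2 ⟨hg.aN i hi, hA⟩,
        fun hA => (hex i j hi.le hj (d i) hdS hdP).x3 ⟨hg.aM i hi, hA⟩⟩
  obtain ⟨l, f, z, hpre⟩ := pta α M N P S a b g d h e hg hh hsep (hirr P hP)
  obtain ⟨g', d', h', e', hconf, ⟨i, hi, hgi⟩, ⟨j, hj, hhj⟩⟩ :=
    ptb α M N P S a l b g d f z h e hg hh hsep hpre
  have hfin := con α M N n P S a l b g' d' f z h' e' φ θ k hS hP hconf hc hk hv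
  rw [hgi, hhj] at hfin
  exact hXY i j hi hj hfin

end Pool.Agent.R3M.H31
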