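import Pool.Agent.R3M.Kit

/-!
# R3M, module CNC: the three triangle edges
-/

set_option autoImplicit false

namespace Pool.Agent.R3M.H31

open Pool.Agent.R3M Pool.Agent.R3M.Kit

section
variable {α : Type} [DecidableEq α]

theorem cyc_hP {M N : Mat α} {P S : Finset α} {m : ℕ} {h e : ℕ → α} (hc : Cyc M N P S m h e)
    {i : ℕ} (hi : i ≤ m) : h i ∈ P := by
  rcases Nat.lt_or_ge i m with h1 | h1
  · exact hc.hP i h1
  · have : i = m := le_antisymm hi h1
    rw [this, hc.wrap]
    exact hc.hP 0 (by have := hc.two; omega)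

theorem cyc_hS {M N : Mat α} {P S : Finset α} {m : ℕ} {h e : ℕ → α} (hc : Cyc M N P S m h e)
    {i : ℕ} (hi : i ≤ m) : h i ∉ S := by
  rcases Nat.lt_or_ge i m with h1 | h1
  · exact hc.hS i h1
  · have : i = m := le_antisymm hi h1
    rw [this, hc.wrap]
    exact hc.hS 0 (by have := hc.two; omega)

theorem cyc_inj_succ {M N : Mat α} {P S : Finset α} {m : ℕ} {h e : ℕ → α}
    (hc : Cyc M N P S m h e) {i j : ℕ} (hi : i < m) (hj : j < m) (hij : h (i + 1) = h (j + 1)) :
    i = j := by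
  have h2 := hc.two
  rcases Nat.lt_or_ge (i + 1) m with h1 | h1
  · rcases Nat.lt_or_ge (j + 1) m with h3 | h3
    · have := hc.hinj _ _ h1 h3 hij
      omega
    · have hjm : j + 1 = m := by omega
      rw [hjm, hc.wrap] at hij
      have := hc.hinj _ _ h1 (by omega) hij
      omega
  · have him : i + 1 = m := by omega
    rcases Nat.lt_or_ge (j + 1) m with h3 | h3
    · rw [him, hc.wrap] at hij
      have := hc.hinj _ _ (by omega) h3 hij
      omega
    · omega

theorem image_succ {m : ℕ} (g : ℕ → α) (hw : g m = g 0) :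
    (Finset.range m).image (fun x => g (x + 1)) = (Finset.range m).image g := by
  ext u
  simp only [Finset.mem_image, Finset.mem_range]
  constructor
  · rintro ⟨x, hx, rfl⟩
    rcases Nat.lt_or_ge (x + 1) m with h1 | h1
    · exact ⟨x + 1, h1, rfl⟩
    · have : x + 1 = m := by omega
      exact ⟨0, by omega, by rw [this, hw]⟩
  · rintro ⟨x, hx, rfl⟩
    rcases Nat.eq_zero_or_pos x with h0 | h0
    · subst h0
      refine ⟨m - 1, by omega, ?_⟩
      have : m - 1 + 1 = m := by omega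
      rw [this, hw]
    · refine ⟨x - 1, by omega, ?_⟩
      have : x - 1 + 1 = x := by omega
      rw [this]

end

/-- `M`-independence of `P` with both cycles exchanged. -/
theorem both_ind (mtr : MtrStmt) {α : Type} [DecidableEq α] {M N : Mat α} {n : ℕ}
    {P S : Finset α} {a l b : ℕ} {g d f z h e : ℕ → α} (hS : Setup M N n S)
    (hP : CI M N (n + 1) P) (hc : Conf M N P S a l b g d f z h e) :
    M.Ind ((P \ ((Finset.range a).image g ∪ (Finset.range b).image h)) ∪
      ((Finset.range a).image d ∪ (Finset.range b).image e)) := by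
  have h2 := hc.c1.two
  have h3 := hc.c2.two
  have hl := hc.lpos
  have key := mtr α M P a l b g d f z h e l l (Finset.range a) (Finset.range b)
    (by rw [hP.2.2]; exact hS.rM) hP.1 (by omega) hl (by omega) hc.hM
    (fun i hi => cyc_hP hc.c1 hi) hc.fP hc.c2.hP hc.c1.eP hc.zP hc.c2.eP
    (fun i j hi hj => cyc_inj_succ hc.c1 hi hj) hc.c1.wrap hc.f0 hc.c1.einj
    (fun i j hi hj => hc.finj i j hi.le hj.le) hc.zinj hc.c2.hinj hc.c2.einj
    (fun i j hi h1 hj => hc.fg i j hi h1 hj.le) (fun i j hi hj => hc.fh i j hi.le hj)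
    (fun i j hi hj => hc.gh i j hi hj.le) hc.de hc.zd hc.ze le_rfl le_rfl
    (Finset.Subset.refl _) (Finset.Subset.refl _) (fun h => by omega) (fun _ h => by omega)
  rw [image_succ g hc.c1.wrap, Finset.Ico_self, Finset.image_empty, Finset.image_empty,
    Finset.union_empty, Finset.union_empty] at key
  exact key

section
variable {α : Type} [DecidableEq α]

theorem mem_VS {P : Finset α} {g d f z h e : ℕ → α} {i j : ℕ} {X RX Y RY : Finset ℕ} {u : α} :
    u ∈ VS P g d f z h e i j X RX Y RY ↔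
      (u ∈ P ∧ u ∉ RX.image g ∧ (∀ t, i ≤ t → t ≤ j → f t ≠ u) ∧ u ∉ RY.image h) ∨
        (u ∈ X.image d ∨ (∃ t, (i ≤ t ∧ t < j) ∧ z t = u) ∨ u ∈ Y.image e) := by
  unfold VS
  simp only [Finset.mem_union, Finset.mem_sdiff, not_or, Finset.mem_image, Finset.mem_Icc,
    Finset.mem_Ico, not_exists, not_and, ne_eq, and_assoc, or_assoc]

theorem range_one_image (g : ℕ → α) : (Finset.range 1).image g = {g 0} := by
  simp

/-- Level of a set which differs from `P` by removing elements outside `S` and adding elements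
of `S` which are not in `P`. -/
theorem level_eq {P S R A : Finset α} (hR : ∀ x ∈ R, x ∉ S) (hA : ∀ x ∈ A, x ∈ S)
    (hAP : ∀ x ∈ A, x ∉ P) : (((P \ R) ∪ A) ∩ S).card = (P ∩ S).card + A.card := by
  have : ((P \ R) ∪ A) ∩ S = (P ∩ S) ∪ A := by
    ext x
    simp only [Finset.mem_inter, Finset.mem_union, Finset.mem_sdiff]
    constructor
    · rintro ⟨⟨h1, _⟩ | h1, h2⟩
      · exact Or.inl ⟨h1, h2⟩
      · exact Or.inr h1
    · rintro (⟨h1, h2⟩ | h1)
      · exact ⟨Or.inl ⟨h1, fun h => hR x h h2⟩, h2⟩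
      · exact ⟨Or.inr h1, hA x h1⟩
  rw [this, Finset.card_union_of_disjoint]
  rw [Finset.disjoint_left]
  intro x hx hx'
  exact hAP x hx' (Finset.mem_inter.mp hx).1

theorem level_erase_ge {Q S : Finset α} {k : ℕ} (h : k + 1 ≤ (Q ∩ S).card) (x : α) :
    k ≤ ((Q.erase x) ∩ S).card := by
  have : (Q ∩ S).erase x ⊆ Q.erase x ∩ S := by
    intro u hu
    rw [Finset.mem_erase, Finset.mem_inter] at hu
    exact Finset.mem_inter.mpr ⟨Finset.mem_erase.mpr ⟨hu.1, hu.2.1⟩, hu.2.2⟩
  have h1 := Finset.card_le_card this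
  have h2 : (Q ∩ S).card - 1 ≤ ((Q ∩ S).erase x).card := Finset.pred_card_le_card_erase
  omega

theorem card_image_range {m : ℕ} {d : ℕ → α} (hd : ∀ i j, i < m → j < m → d i = d j → i = j) :
    ((Finset.range m).image d).card = m := by
  rw [Finset.card_image_of_injOn, Finset.card_range]
  intro i hi j hj hij
  have h1 : i < m := by simpa using hi
  have h2 : j < m := by simpa using hj
  exact hd i j h1 h2 hij

/-- An edge between two sets `Q - x` and `Q - y`. -/
theorem edge_of {M N : Mat α} {n : ℕ} {S : Finset α} {φ : Finset α → Finset α → ℤ}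
    {θ : Finset α → ℤ} {k : ℕ} (hp : Pot M N n S φ (k + 1) θ) {Q : Finset α} {x y w : α}
    (hx : CI M N n (Q.erase x)) (hy : CI M N n (Q.erase y)) (hlev : k + 2 ≤ (Q ∩ S).card)
    (hwS : w ∉ S) (hwQ : w ∈ Q) (hxy : (w = x ∧ w ≠ y) ∨ (w = y ∧ w ≠ x)) :
    φ (Q.erase x) (Q.erase y) = θ (Q.erase y) - θ (Q.erase x) := by
  refine hp _ _ hx hy (near_erase Q x y) (level_erase_ge hlev x) (level_erase_ge hlev y) ?_
  left
  refine ⟨w, ?_, hwS⟩
  rcases hxy with ⟨rfl, h⟩ | ⟨rfl, h⟩
  · right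
    exact ⟨Finset.mem_erase.mpr ⟨h, hwQ⟩, fun h => (Finset.mem_erase.mp h).1 rfl⟩
  · left
    exact ⟨Finset.mem_erase.mpr ⟨h, hwQ⟩, fun h => (Finset.mem_erase.mp h).1 rfl⟩

end

section
variable {α : Type} [DecidableEq α] {M N : Mat α} {P S : Finset α} {a l b : ℕ}
  {g d f z h e : ℕ → α}

/-- `P` with the first cycle exchanged. -/
def Q1 (P : Finset α) (a : ℕ) (g d : ℕ → α) : Finset α :=
  (P \ (Finset.range a).image g) ∪ (Finset.range a).image d

/-- `P` with both cycles exchanged. -/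
def Q2 (P : Finset α) (a b : ℕ) (g d h e : ℕ → α) : Finset α :=
  (P \ ((Finset.range a).image g ∪ (Finset.range b).image h)) ∪
      ((Finset.range a).image d ∪ (Finset.range b).image e)

theorem mem_img {m : ℕ} {g : ℕ → α} {u : α} :
    u ∈ (Finset.range m).image g ↔ ∃ i, i < m ∧ g i = u := by
  simp [Finset.mem_image]

theorem tt_tf00 (hc : Conf M N P S a l b g d f z h e) :
    TT P a l b g d f z h e true false 0 0 = (Q1 P a g d).erase (d (a - 1)) := by
  have h2 := hc.c1.two
  have hl := hc.lpos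
  have e1 : X1 a true 0 = Finset.range (a - 1) := by simp [X1]
  have e2 : RX1 a true 0 = Finset.range a := by simp [RX1]
  have e3 : Y2 b l false 0 = ∅ := by simp [Y2]
  have e4 : RY2 b l false 0 = ∅ := by
    have : ¬ (0 = l) := by omega
    simp [RY2, this]
  unfold TT Q1
  rw [e1, e2, e3, e4]
  ext u
  rw [mem_VS, Finset.mem_erase, Finset.mem_union, Finset.mem_sdiff]
  simp only [mem_img, Finset.image_empty, Finset.notMem_empty, not_false_eq_true, and_true,
    or_false]
  constructor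
  · rintro (⟨h3, h4, h5⟩ | (⟨i, hi, rfl⟩ | ⟨t, ht, _⟩))
    · refine ⟨?_, Or.inl ⟨h3, h4⟩⟩
      intro h6
      exact hc.c1.eP (a - 1) (by omega) (h6 ▸ h3)
    · refine ⟨?_, Or.inr ⟨i, by omega, rfl⟩⟩
      intro h6
      have := hc.c1.einj i (a - 1) (by omega) (by omega) h6
      omega
    · omega
  · rintro ⟨h3, (⟨h4, h5⟩ | ⟨i, hi, rfl⟩)⟩
    · refine Or.inl ⟨h4, h5, ?_⟩
      intro t _ ht h6
      have : t = 0 := by omega
      subst this
      exact h5 ⟨0, by omega, by rw [← hc.f0, h6]⟩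
    · refine Or.inr (Or.inl ⟨i, ?_, rfl⟩)
      by_contra h7
      have : i = a - 1 := by omega
      exact h3 (by rw [this])

theorem tt_tfll (hc : Conf M N P S a l b g d f z h e) :
    TT P a l b g d f z h e true false l l = (Q1 P a g d).erase (h 0) := by
  have h2 := hc.c1.two
  have hl := hc.lpos
  have hl0 : ¬ (l = 0) := by omega
  have e1 : X1 a true l = Finset.range a := by simp [X1, hl0]
  have e2 : RX1 a true l = Finset.range a := by simp [RX1]
  have e3 : Y2 b l false l = ∅ := by simp [Y2]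
  have e4 : RY2 b l false l = Finset.range 1 := by simp [RY2]
  have h0P : h 0 ∈ P := hc.c2.hP 0 (by have := hc.c2.two; omega)
  unfold TT Q1
  rw [e1, e2, e3, e4]
  ext u
  rw [mem_VS, Finset.mem_erase, Finset.mem_union, Finset.mem_sdiff]
  simp only [mem_img, Finset.image_empty, Finset.notMem_empty, or_false]
  constructor
  · rintro (⟨h3, h4, h5, h6⟩ | (⟨i, hi, rfl⟩ | ⟨t, ht, _⟩))
    · refine ⟨?_, Or.inl ⟨h3, h4⟩⟩
      intro h7
      exact h6 ⟨0, by omega, h7.symm⟩
    · refine ⟨?_, Or.inr ⟨i, by omega, rfl⟩⟩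
      intro h6
      exact hc.c1.eP i hi (h6 ▸ h0P)
    · omega
  · rintro ⟨h3, (⟨h4, h5⟩ | ⟨i, hi, rfl⟩)⟩
    · refine Or.inl ⟨h4, h5, ?_, ?_⟩
      · intro t ht1 ht2 h6
        have : t = l := by omega
        subst this
        exact h3 (by rw [← h6, hc.fl])
      · rintro ⟨i, hi, hi'⟩
        have : i = 0 := by omega
        subst this
        exact h3 hi'.symm
    · exact Or.inr (Or.inl ⟨i, hi, rfl⟩)

theorem tt_ft00 (hc : Conf M N P S a l b g d f z h e) :
    TT P a l b g d f z h e false true 0 0 = (Q1 P b h e).erase (g 0) := by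
  have h2 := hc.c1.two
  have hl := hc.lpos
  have hl0 : ¬ (0 = l) := by omega
  have e1 : X1 a false 0 = ∅ := by simp [X1]
  have e2 : RX1 a false 0 = Finset.range 1 := by simp [RX1]
  have e3 : Y2 b l true 0 = Finset.range b := by simp [Y2, hl0]
  have e4 : RY2 b l true 0 = Finset.range b := by simp [RY2]
  have h0P : g 0 ∈ P := hc.c1.hP 0 (by omega)
  unfold TT Q1
  rw [e1, e2, e3, e4]
  ext u
  rw [mem_VS, Finset.mem_erase, Finset.mem_union, Finset.mem_sdiff]
  simp only [mem_img, Finset.image_empty, Finset.notMem_empty, false_or]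
  constructor
  · rintro (⟨h3, h4, h5, h6⟩ | (⟨t, ht, _⟩ | ⟨i, hi, rfl⟩))
    · refine ⟨?_, Or.inl ⟨h3, h6⟩⟩
      intro h7
      exact h4 ⟨0, by omega, h7.symm⟩
    · omega
    · refine ⟨?_, Or.inr ⟨i, by omega, rfl⟩⟩
      intro h6
      exact hc.c2.eP i hi (h6 ▸ h0P)
  · rintro ⟨h3, (⟨h4, h5⟩ | ⟨i, hi, rfl⟩)⟩
    · refine Or.inl ⟨h4, ?_, ?_, h5⟩
      · rintro ⟨i, hi, hi'⟩
        have : i = 0 := by omega
        subst this
        exact h3 hi'.symm
      · intro t ht1 ht2 h6
        have : t = 0 := by omega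
        subst this
        exact h3 (by rw [← h6, hc.f0])
    · exact Or.inr (Or.inr ⟨i, hi, rfl⟩)

theorem tt_ftll (hc : Conf M N P S a l b g d f z h e) :
    TT P a l b g d f z h e false true l l = (Q1 P b h e).erase (e (b - 1)) := by
  have h2 := hc.c1.two
  have h2b := hc.c2.two
  have hl := hc.lpos
  have hl0 : ¬ (l = 0) := by omega
  have e1 : X1 a false l = ∅ := by simp [X1]
  have e2 : RX1 a false l = ∅ := by simp [RX1, hl0]
  have e3 : Y2 b l true l = Finset.range (b - 1) := by simp [Y2]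
  have e4 : RY2 b l true l = Finset.range b := by simp [RY2]
  unfold TT Q1
  rw [e1, e2, e3, e4]
  ext u
  rw [mem_VS, Finset.mem_erase, Finset.mem_union, Finset.mem_sdiff]
  simp only [mem_img, Finset.image_empty, Finset.notMem_empty, false_or, not_false_eq_true,
    true_and]
  constructor
  · rintro (⟨h3, h5, h6⟩ | (⟨t, ht, _⟩ | ⟨i, hi, rfl⟩))
    · refine ⟨?_, Or.inl ⟨h3, h6⟩⟩
      intro h7
      exact hc.c2.eP (b - 1) (by omega) (h7 ▸ h3)
    · omega
    · refine ⟨?_, Or.inr ⟨i, by omega, rfl⟩⟩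
      intro h6
      have := hc.c2.einj i (b - 1) (by omega) (by omega) h6
      omega
  · rintro ⟨h3, (⟨h4, h5⟩ | ⟨i, hi, rfl⟩)⟩
    · refine Or.inl ⟨h4, ?_, h5⟩
      intro t ht1 ht2 h6
      have : t = l := by omega
      subst this
      exact h5 ⟨0, by omega, by rw [← hc.fl, h6]⟩
    · refine Or.inr (Or.inr ⟨i, ?_, rfl⟩)
      by_contra h7
      have : i = b - 1 := by omega
      exact h3 (by rw [this])

theorem tt_tt00 (hc : Conf M N P S a l b g d f z h e) :
    TT P a l b g d f z h e true true 0 0 = (Q2 P a b g d h e).erase (d (a - 1)) := by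
  have h2 := hc.c1.two
  have h2b := hc.c2.two
  have hl := hc.lpos
  have hl0 : ¬ (0 = l) := by omega
  have e1 : X1 a true 0 = Finset.range (a - 1) := by simp [X1]
  have e2 : RX1 a true 0 = Finset.range a := by simp [RX1]
  have e3 : Y2 b l true 0 = Finset.range b := by simp [Y2, hl0]
  have e4 : RY2 b l true 0 = Finset.range b := by simp [RY2]
  unfold TT Q2
  rw [e1, e2, e3, e4]
  ext u
  rw [mem_VS, Finset.mem_erase, Finset.mem_union, Finset.mem_sdiff, Finset.mem_union,
    Finset.mem_union]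
  simp only [mem_img]
  constructor
  · rintro (⟨h3, h4, h5, h6⟩ | (⟨i, hi, rfl⟩ | ⟨t, ht, _⟩ | ⟨i, hi, rfl⟩))
    · refine ⟨?_, Or.inl ⟨h3, fun h => h.elim h4 h6⟩⟩
      intro h7
      exact hc.c1.eP (a - 1) (by omega) (h7 ▸ h3)
    · refine ⟨?_, Or.inr (Or.inl ⟨i, by omega, rfl⟩)⟩
      intro h6
      have := hc.c1.einj i (a - 1) (by omega) (by omega) h6
      omega
    · omega
    · refine ⟨?_, Or.inr (Or.inr ⟨i, by omega, rfl⟩)⟩
      intro h6
      exact hc.de (a - 1) i (by omega) hi h6.symm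
  · rintro ⟨h3, (⟨h4, h5⟩ | ⟨i, hi, rfl⟩ | ⟨i, hi, rfl⟩)⟩
    · rw [not_or] at h5
      refine Or.inl ⟨h4, h5.1, ?_, h5.2⟩
      intro t ht1 ht2 h6
      have : t = 0 := by omega
      subst this
      exact h5.1 ⟨0, by omega, by rw [← hc.f0, h6]⟩
    · refine Or.inr (Or.inl ⟨i, ?_, rfl⟩)
      by_contra h7
      have : i = a - 1 := by omega
      exact h3 (by rw [this])
    · exact Or.inr (Or.inr (Or.inr ⟨i, hi, rfl⟩))

theorem tt_ttll (hc : Conf M N P S a l b g d f z h e) :
    TT P a l b g d f z h e true true l l = (Q2 P a b g d h e).erase (e (b - 1)) := by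
  have h2 := hc.c1.two
  have h2b := hc.c2.two
  have hl := hc.lpos
  have hl0 : ¬ (l = 0) := by omega
  have e1 : X1 a true l = Finset.range a := by simp [X1, hl0]
  have e2 : RX1 a true l = Finset.range a := by simp [RX1]
  have e3 : Y2 b l true l = Finset.range (b - 1) := by simp [Y2]
  have e4 : RY2 b l true l = Finset.range b := by simp [RY2]
  unfold TT Q2
  rw [e1, e2, e3, e4]
  ext u
  rw [mem_VS, Finset.mem_erase, Finset.mem_union, Finset.mem_sdiff, Finset.mem_union,
    Finset.mem_union]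
  simp only [mem_img]
  constructor
  · rintro (⟨h3, h4, h5, h6⟩ | (⟨i, hi, rfl⟩ | ⟨t, ht, _⟩ | ⟨i, hi, rfl⟩))
    · refine ⟨?_, Or.inl ⟨h3, fun h => h.elim h4 h6⟩⟩
      intro h7
      exact hc.c2.eP (b - 1) (by omega) (h7 ▸ h3)
    · refine ⟨?_, Or.inr (Or.inl ⟨i, by omega, rfl⟩)⟩
      intro h6
      exact hc.de i (b - 1) hi (by omega) h6
    · omega
    · refine ⟨?_, Or.inr (Or.inr ⟨i, by omega, rfl⟩)⟩
      intro h6
      have := hc.c2.einj i (b - 1) (by omega) (by omega) h6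
      omega
  · rintro ⟨h3, (⟨h4, h5⟩ | ⟨i, hi, rfl⟩ | ⟨i, hi, rfl⟩)⟩
    · rw [not_or] at h5
      refine Or.inl ⟨h4, h5.1, ?_, h5.2⟩
      intro t ht1 ht2 h6
      have : t = l := by omega
      subst this
      exact h5.2 ⟨0, by omega, by rw [← hc.fl, h6]⟩
    · exact Or.inr (Or.inl ⟨i, hi, rfl⟩)
    · refine Or.inr (Or.inr (Or.inr ⟨i, ?_, rfl⟩))
      by_contra h7
      have : i = b - 1 := by omega
      exact h3 (by rw [this])

end

/-- CNC. -/
theorem cnc (vst : VstStmt) (mtr : MtrStmt) (rev : RevStmt) : CncStmt := by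
  intro α _ M N n P S a l b g d f z h e φ θ k hS hP hc hclo hk hv
  have h2 := hc.c1.two
  have h2b := hc.c2.two
  have hl := hc.lpos
  have hl0 : ¬ (l = 0) := by omega
  have hl1 : ¬ (0 = l) := by omega
  -- the six states
  have s1 : CI M N n (TT P a l b g d f z h e true false 0 0) := by
    refine vst α M N n P S a l b g d f z h e 0 0 _ _ _ _ hS hP hc le_rfl (by omega)
      (Or.inl ⟨rfl, a - 1, by omega, ?_, ?_⟩) (Or.inr ⟨by omega, Or.inl ⟨?_, ?_⟩⟩)
    · simp [X1]
    · have : a - 1 + 1 = a := by omega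
      simp [RX1, this]
    · simp [Y2]
    · simp [RY2, hl1]
  have s2 : CI M N n (TT P a l b g d f z h e true false l l) := by
    refine vst α M N n P S a l b g d f z h e l l _ _ _ _ hS hP hc le_rfl le_rfl
      (Or.inr ⟨hl, Or.inr ⟨?_, ?_⟩⟩) (Or.inl ⟨rfl, 0, by omega, ?_, ?_⟩)
    · simp [X1, hl0]
    · simp [RX1]
    · simp [Y2]
    · simp [RY2]
  have s3 : CI M N n (TT P a l b g d f z h e false true 0 0) := by
    refine vst α M N n P S a l b g d f z h e 0 0 _ _ _ _ hS hP hc le_rfl (by omega)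
      (Or.inl ⟨rfl, 0, by omega, ?_, ?_⟩) (Or.inr ⟨by omega, Or.inr ⟨?_, ?_⟩⟩)
    · simp [X1]
    · simp [RX1]
    · simp [Y2, hl1]
    · simp [RY2]
  have s4 : CI M N n (TT P a l b g d f z h e false true l l) := by
    refine vst α M N n P S a l b g d f z h e l l _ _ _ _ hS hP hc le_rfl le_rfl
      (Or.inr ⟨hl, Or.inl ⟨?_, ?_⟩⟩) (Or.inl ⟨rfl, b - 1, by omega, ?_, ?_⟩)
    · simp [X1]
    · simp [RX1, hl0]
    · simp [Y2]
    · have : b - 1 + 1 = b := by omega
      simp [RY2, this]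
  have s5 : CI M N n (TT P a l b g d f z h e true true 0 0) := by
    refine vst α M N n P S a l b g d f z h e 0 0 _ _ _ _ hS hP hc le_rfl (by omega)
      (Or.inl ⟨rfl, a - 1, by omega, ?_, ?_⟩) (Or.inr ⟨by omega, Or.inr ⟨?_, ?_⟩⟩)
    · simp [X1]
    · have : a - 1 + 1 = a := by omega
      simp [RX1, this]
    · simp [Y2, hl1]
    · simp [RY2]
  have s6 : CI M N n (TT P a l b g d f z h e true true l l) := by
    refine vst α M N n P S a l b g d f z h e l l _ _ _ _ hS hP hc le_rfl le_rfl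
      (Or.inr ⟨hl, Or.inr ⟨?_, ?_⟩⟩) (Or.inl ⟨rfl, b - 1, by omega, ?_, ?_⟩)
    · simp [X1, hl0]
    · simp [RX1]
    · simp [Y2]
    · have : b - 1 + 1 = b := by omega
      simp [RY2, this]
  rw [tt_tf00 hc] at s1
  rw [tt_tfll hc] at s2
  rw [tt_ft00 hc] at s3
  rw [tt_ftll hc] at s4
  rw [tt_tt00 hc] at s5
  rw [tt_ttll hc] at s6
  rw [tt_tf00 hc, tt_tfll hc, tt_ft00 hc, tt_ftll hc, tt_tt00 hc, tt_ttll hc]
  -- levels
  have gS : ∀ x ∈ (Finset.range a).image g, x ∉ S := by
    intro x hx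
    obtain ⟨i, hi, rfl⟩ := mem_img.mp hx
    exact hc.c1.hS i hi
  have hhS : ∀ x ∈ (Finset.range b).image h, x ∉ S := by
    intro x hx
    obtain ⟨i, hi, rfl⟩ := mem_img.mp hx
    exact hc.c2.hS i hi
  have dS : ∀ x ∈ (Finset.range a).image d, x ∈ S := by
    intro x hx
    obtain ⟨i, hi, rfl⟩ := mem_img.mp hx
    exact hc.c1.eS i hi
  have eS : ∀ x ∈ (Finset.range b).image e, x ∈ S := by
    intro x hx
    obtain ⟨i, hi, rfl⟩ := mem_img.mp hx
    exact hc.c2.eS i hi
  have dP : ∀ x ∈ (Finset.range a).image d, x ∉ P := by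
    intro x hx
    obtain ⟨i, hi, rfl⟩ := mem_img.mp hx
    exact hc.c1.eP i hi
  have eP : ∀ x ∈ (Finset.range b).image e, x ∉ P := by
    intro x hx
    obtain ⟨i, hi, rfl⟩ := mem_img.mp hx
    exact hc.c2.eP i hi
  have l1 : k + 2 ≤ (Q1 P a g d ∩ S).card := by
    unfold Q1
    rw [level_eq gS dS dP, card_image_range hc.c1.einj]
    omega
  have l2 : k + 2 ≤ (Q1 P b h e ∩ S).card := by
    unfold Q1
    rw [level_eq hhS eS eP, card_image_range hc.c2.einj]
    omega
  have l3 : k + 2 ≤ (Q2 P a b g d h e ∩ S).card := by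
    unfold Q2
    rw [level_eq (R := (Finset.range a).image g ∪ (Finset.range b).image h)
      (A := (Finset.range a).image d ∪ (Finset.range b).image e)
      (fun x hx => (Finset.mem_union.mp hx).elim (gS x) (hhS x))
      (fun x hx => (Finset.mem_union.mp hx).elim (dS x) (eS x))
      (fun x hx => (Finset.mem_union.mp hx).elim (dP x) (eP x))]
    have := Finset.card_le_card (Finset.subset_union_left
      (s₁ := (Finset.range a).image d) (s₂ := (Finset.range b).image e))
    rw [card_image_range hc.c1.einj] at this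
    omega
  have h0S : h 0 ∉ S := hc.c2.hS 0 (by omega)
  have g0S : g 0 ∉ S := hc.c1.hS 0 (by omega)
  have h0P : h 0 ∈ P := hc.c2.hP 0 (by omega)
  have g0P : g 0 ∈ P := hc.c1.hP 0 (by omega)
  have h0Q : h 0 ∈ Q1 P a g d := by
    refine Finset.mem_union_left _ (Finset.mem_sdiff.mpr ⟨h0P, ?_⟩)
    intro hx
    obtain ⟨i, hi, h9⟩ := mem_img.mp hx
    exact hc.gh i 0 hi.le (by omega) h9
  have g0Q : g 0 ∈ Q1 P b h e := by
    refine Finset.mem_union_left _ (Finset.mem_sdiff.mpr ⟨g0P, ?_⟩)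
    intro hx
    obtain ⟨i, hi, h9⟩ := mem_img.mp hx
    exact hc.gh 0 i (by omega) hi.le h9.symm
  refine ⟨?_, ?_, ?_⟩
  · refine edge_of hv.1 s1 s2 l1 h0S h0Q (Or.inr ⟨rfl, ?_⟩)
    intro h9
    exact hc.c1.eP (a - 1) (by omega) (h9 ▸ h0P)
  · by_cases hsub : Q2 P a b g d h e ⊆ S
    · refine hv.1 _ _ s6 s5 (near_erase _ _ _) (level_erase_ge l3 _) (level_erase_ge l3 _) ?_
      exact Or.inr ⟨(Finset.erase_subset _ _).trans hsub, (Finset.erase_subset _ _).trans hsub⟩
    · obtain ⟨w, hwQ, hwS⟩ := Finset.not_subset.mp hsub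
      have hdw : w ≠ d (a - 1) := fun h9 => hwS (h9 ▸ hc.c1.eS (a - 1) (by omega))
      have hew : w ≠ e (b - 1) := fun h9 => hwS (h9 ▸ hc.c2.eS (b - 1) (by omega))
      have hdQ : d (a - 1) ∈ Q2 P a b g d h e :=
        Finset.mem_union_right _ (Finset.mem_union_left _
          (mem_img.mpr ⟨a - 1, by omega, rfl⟩))
      have hQc : (Q2 P a b g d h e).card = n + 1 := by
        have := s5.2.2
        rw [Finset.card_erase_of_mem hdQ] at this
        have hpos : 0 < (Q2 P a b g d h e).card := Finset.card_pos.mpr ⟨_, hdQ⟩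
        omega
      have hQM : M.Ind (Q2 P a b g d h e) := both_ind mtr hS hP hc
      have hQN : N.Ind (Q2 P a b g d h e) := by
        have := both_ind mtr (setup_swap hS) (ci_swap hP) (rev α M N P S a l b g d f z h e hc)
        unfold Q2
        rw [Finset.union_comm ((Finset.range a).image g),
          Finset.union_comm ((Finset.range a).image d)]
        exact this
      have sw : CI M N n ((Q2 P a b g d h e).erase w) := by
        refine ⟨M.sub hQM (Finset.erase_subset _ _), N.sub hQN (Finset.erase_subset _ _), ?_⟩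
        rw [Finset.card_erase_of_mem hwQ, hQc]
        omega
      rw [← clo_tri hclo s6 sw s5 (near_erase _ _ _) (near_erase _ _ _) (near_erase _ _ _),
        edge_of hv.1 s6 sw l3 hwS hwQ (Or.inr ⟨rfl, hew⟩),
        edge_of hv.1 sw s5 l3 hwS hwQ (Or.inl ⟨rfl, hdw⟩)]
      ring
  · refine edge_of hv.1 s3 s4 l2 g0S g0Q (Or.inl ⟨rfl, ?_⟩)
    intro h9
    exact hc.c2.eP (b - 1) (by omega) (h9 ▸ g0P)

end Pool.Agent.R3M.H31
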