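import Pool.Agent.R3M.Kit

/-!
# R3M, module VAL: all upward exchanges give the same value
-/

set_option autoImplicit false

namespace Pool.Agent.R3M.H31

open Pool.Agent.R3M Pool.Agent.R3M.Kit

section
variable {α : Type} [DecidableEq α]

/-- The value of `θ I` which an upward exchange proposes. -/
def vl (φ : Finset α → Finset α → ℤ) (θ : Finset α → ℤ) (I : Finset α) (e f : α) : ℤ :=
  θ (insert e (I.erase f)) - φ I (insert e (I.erase f))

/-- The data of one vertex. -/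
structure Vx (M N : Mat α) (n : ℕ) (S : Finset α) (φ : Finset α → Finset α → ℤ)
    (θ : Finset α → ℤ) (k : ℕ) (I : Finset α) : Prop where
  hS : Setup M N n S
  hc : Clo M N n φ
  hp : Pot M N n S φ (k + 1) θ
  hI : CI M N n I
  hk : (I ∩ S).card = k
  h2 : 2 ≤ (I \ S).card

theorem Vx.swap {M N : Mat α} {n : ℕ} {S : Finset α} {φ : Finset α → Finset α → ℤ}
    {θ : Finset α → ℤ} {k : ℕ} {I : Finset α} (h : Vx M N n S φ θ k I) :
    Vx N M n S φ θ k I :=
  ⟨setup_swap h.hS, clo_swap h.hc, pot_swap h.hp, ci_swap h.hI, h.hk, h.h2⟩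

end

section
variable (vse : VseStmt) (vfo : VfoStmt)
include vse vfo

theorem four_val {α : Type} [DecidableEq α] {M N : Mat α} {n : ℕ} {S : Finset α}
    {φ : Finset α → Finset α → ℤ} {θ : Finset α → ℤ} {k : ℕ} {I : Finset α}
    (h : Vx M N n S φ θ k I) {e f e' f' : α} (u : Up M N S I e f) (u' : Up M N S I e' f')
    (hx : ∃ x x' J, Up M N S I e x ∧ Up M N S I e' x' ∧
      Four M N n S I (insert e (I.erase x)) (insert e' (I.erase x')) J) :
    vl φ θ I e f = vl φ θ I e' f' := by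
  obtain ⟨x, x', J, hx1, hx2, hJ⟩ := hx
  have e1 := vse α M N n S φ θ k I e f x h.hc h.hp h.hI h.hk u hx1
  have e2 := vse α M N n S φ θ k I e' f' x' h.hc h.hp h.hI h.hk u' hx2
  have e3 := vfo α M N n S φ θ k I J e x e' x' h.hc h.hp h.hI h.hk hx1 hx2 hJ
  unfold vl
  rw [e1, e2, e3]

theorem rc_val (vrc : VrcStmt) {α : Type} [DecidableEq α] {M N : Mat α} {n : ℕ} {S : Finset α}
    {φ : Finset α → Finset α → ℤ} {θ : Finset α → ℤ} {k : ℕ} {I : Finset α}
    (h : Vx M N n S φ θ k I) {e f e' f' : α} (u : Up M N S I e f) (u' : Up M N S I e' f')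
    (a1 : M.Ind (insert e I)) (a2 : ¬ N.Ind (insert e I)) (a3 : ¬ M.Ind (insert e' I))
    (a4 : N.Ind (insert e' I)) : vl φ θ I e f = vl φ θ I e' f' :=
  four_val vse vfo h u u' (vrc α M N n S I e f e' f' h.hS h.hI h.h2 u u' a1 a2 a3 a4)

theorem rf_val (vrf : VrfStmt) {α : Type} [DecidableEq α] {M N : Mat α} {n : ℕ} {S : Finset α}
    {φ : Finset α → Finset α → ℤ} {θ : Finset α → ℤ} {k : ℕ} {I : Finset α}
    (h : Vx M N n S φ θ k I) {e f e' f' : α} (u : Up M N S I e f) (u' : Up M N S I e' f')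
    (a1 : M.Ind (insert e I)) (a2 : ¬ N.Ind (insert e I)) (a3 : M.Ind (insert e' I))
    (a4 : N.Ind (insert e' I)) : vl φ θ I e f = vl φ θ I e' f' :=
  four_val vse vfo h u u' (vrf α M N n S I e f e' f' h.hS h.hI h.h2 u u' a1 a2 a3 a4)

theorem ff_val (vff : VffStmt) {α : Type} [DecidableEq α] {M N : Mat α} {n : ℕ} {S : Finset α}
    {φ : Finset α → Finset α → ℤ} {θ : Finset α → ℤ} {k : ℕ} {I : Finset α}
    (h : Vx M N n S φ θ k I) {e f e' f' : α} (u : Up M N S I e f) (u' : Up M N S I e' f')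
    (a1 : M.Ind (insert e I)) (a2 : N.Ind (insert e I)) (a3 : M.Ind (insert e' I))
    (a4 : N.Ind (insert e' I)) : vl φ θ I e f = vl φ θ I e' f' := by
  by_cases hee : e = e'
  · subst hee
    exact vse α M N n S φ θ k I e f f' h.hc h.hp h.hI h.hk u u'
  · exact four_val vse vfo h u u'
      (vff α M N n S I e f e' f' h.hS h.hI h.h2 hee u u' a1 a2 a3 a4)

theorem br_val (vbr : VbrStmt) {α : Type} [DecidableEq α] {M N : Mat α} {n : ℕ} {S : Finset α}
    {φ : Finset α → Finset α → ℤ} {θ : Finset α → ℤ} {k : ℕ} {I : Finset α}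
    (h : Vx M N n S φ θ k I) {e f e' f' : α} (u : Up M N S I e f) (u' : Up M N S I e' f')
    (a1 : ¬ M.Ind (insert e I)) (a2 : ¬ N.Ind (insert e I)) (a3 : M.Ind (insert e' I))
    (a4 : ¬ N.Ind (insert e' I)) : vl φ θ I e f = vl φ θ I e' f' :=
  four_val vse vfo h u u' (vbr α M N n S I e f e' f' h.hS h.hI h.h2 u u' a1 a2 a3 a4)

theorem bf_val (vbf : VbfStmt) {α : Type} [DecidableEq α] {M N : Mat α} {n : ℕ} {S : Finset α}
    {φ : Finset α → Finset α → ℤ} {θ : Finset α → ℤ} {k : ℕ} {I : Finset α}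
    (h : Vx M N n S φ θ k I) {e f e' f' : α} (u : Up M N S I e f) (u' : Up M N S I e' f')
    (a1 : ¬ M.Ind (insert e I)) (a2 : ¬ N.Ind (insert e I)) (a3 : M.Ind (insert e' I))
    (a4 : N.Ind (insert e' I)) : vl φ θ I e f = vl φ θ I e' f' :=
  four_val vse vfo h u u' (vbf α M N n S I e f e' f' h.hS h.hI h.h2 u u' a1 a2 a3 a4)

end

theorem free_val (vrf : VrfStmt) (vff : VffStmt) (vbf : VbfStmt) (vse : VseStmt) (vfo : VfoStmt)
    {α : Type} [DecidableEq α] {M N : Mat α} {n : ℕ} {S : Finset α}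
    {φ : Finset α → Finset α → ℤ} {θ : Finset α → ℤ} {k : ℕ} {I : Finset α}
    (h : Vx M N n S φ θ k I) {e f e0 f0 : α} (u : Up M N S I e f) (u0 : Up M N S I e0 f0)
    (a3 : M.Ind (insert e0 I)) (a4 : N.Ind (insert e0 I)) :
    vl φ θ I e f = vl φ θ I e0 f0 := by
  by_cases hM : M.Ind (insert e I)
  · by_cases hN : N.Ind (insert e I)
    · exact ff_val vse vfo vff h u u0 hM hN a3 a4
    · exact rf_val vse vfo vrf h u u0 hM hN a3 a4
  · by_cases hN : N.Ind (insert e I)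
    · exact rf_val vse vfo vrf h.swap (up_swap u) (up_swap u0) hN hM a4 a3
    · exact bf_val vse vfo vbf h u u0 hM hN a3 a4

theorem rc_all (vrc : VrcStmt) (vrf : VrfStmt) (vbr : VbrStmt) (vse : VseStmt) (vfo : VfoStmt)
    {α : Type} [DecidableEq α] {M N : Mat α} {n : ℕ} {S : Finset α}
    {φ : Finset α → Finset α → ℤ} {θ : Finset α → ℤ} {k : ℕ} {I : Finset α}
    (h : Vx M N n S φ θ k I) {e f e1 f1 e2 f2 : α} (u : Up M N S I e f)
    (u1 : Up M N S I e1 f1) (u2 : Up M N S I e2 f2)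
    (a1 : M.Ind (insert e1 I)) (a2 : ¬ N.Ind (insert e1 I))
    (a3 : ¬ M.Ind (insert e2 I)) (a4 : N.Ind (insert e2 I)) :
    vl φ θ I e f = vl φ θ I e1 f1 := by
  have h12 := rc_val vse vfo vrc h u1 u2 a1 a2 a3 a4
  by_cases hM : M.Ind (insert e I)
  · by_cases hN : N.Ind (insert e I)
    · exact (rf_val vse vfo vrf h u1 u a1 a2 hM hN).symm
    · rw [h12]
      exact rc_val vse vfo vrc h u u2 hM hN a3 a4
  · by_cases hN : N.Ind (insert e I)
    · exact (rc_val vse vfo vrc h u1 u a1 a2 hM hN).symm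
    · exact br_val vse vfo vbr h u u1 hM hN a1 a2

/-- VAL. -/
theorem val (lci : LciStmt) (vrc : VrcStmt) (vrf : VrfStmt) (vff : VffStmt) (vbr : VbrStmt)
    (vbf : VbfStmt) (vse : VseStmt) (vfo : VfoStmt) (vlo : VloStmt) : ValStmt := by
  intro α _ M N n S φ θ k I e f e' f' hS hc hp hI hk u u'
  have hfI : f ∈ I \ S := Finset.mem_sdiff.mpr ⟨u.2.2.1, u.2.2.2.1⟩
  have hpos : 0 < (I \ S).card := Finset.card_pos.mpr ⟨f, hfI⟩
  by_cases h1 : (I \ S).card = 1
  · exact vlo α M N n S φ θ k I e f e' f' hS hc hp hI hk h1 u u'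
  · have h2 : 2 ≤ (I \ S).card := by omega
    have h : Vx M N n S φ θ k I := ⟨hS, hc, hp, hI, hk, h2⟩
    change vl φ θ I e f = vl φ θ I e' f'
    have hcard : I.card < S.card := by rw [hI.2.2, hS.cS.2.2]; omega
    -- a free element gives everything
    have key : ∀ e0, e0 ∈ S → e0 ∉ I → M.Ind (insert e0 I) → N.Ind (insert e0 I) →
        vl φ θ I e f = vl φ θ I e' f' := by
      intro e0 h0S h0I hM hN
      have u0 : Up M N S I e0 f :=
        ⟨h0S, h0I, u.2.2.1, u.2.2.2.1,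
          M.sub hM (Finset.insert_subset_insert _ (Finset.erase_subset _ _)),
          N.sub hN (Finset.insert_subset_insert _ (Finset.erase_subset _ _))⟩
      rw [free_val vrf vff vbf vse vfo h u u0 hM hN, free_val vrf vff vbf vse vfo h u' u0 hM hN]
    obtain ⟨e1, h1S, h1I, h1M⟩ := M.aug hI.1 hS.cS.1 hcard
    obtain ⟨e2, h2S, h2I, h2N⟩ := N.aug hI.2.1 hS.cS.2.1 hcard
    by_cases h1N : N.Ind (insert e1 I)
    · exact key e1 h1S h1I h1M h1N
    · by_cases h2M : M.Ind (insert e2 I)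
      · exact key e2 h2S h2I h2M h2N
      · obtain ⟨f1, hf1I, hf1S, hf1⟩ := lci α N I S e1 hI.2.1 hS.cS.2.1 h1S h1I h1N
        obtain ⟨f2, hf2I, hf2S, hf2⟩ := lci α M I S e2 hI.1 hS.cS.1 h2S h2I h2M
        have u1 : Up M N S I e1 f1 :=
          ⟨h1S, h1I, hf1I, hf1S,
            M.sub h1M (Finset.insert_subset_insert _ (Finset.erase_subset _ _)), hf1⟩
        have u2 : Up M N S I e2 f2 :=
          ⟨h2S, h2I, hf2I, hf2S, hf2,
            N.sub h2N (Finset.insert_subset_insert _ (Finset.erase_subset _ _))⟩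
        rw [rc_all vrc vrf vbr vse vfo h u u1 u2 h1M h1N h2M h2N,
          rc_all vrc vrf vbr vse vfo h u' u1 u2 h1M h1N h2M h2N]

end Pool.Agent.R3M.H31
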